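import Pool.Agent.Helper20.FR.St

/-!
# Project R20 (MP_8296bc_an), module UL: pointwise limit along the hyperfilter
-/

set_option autoImplicit false

open Topology Filter

namespace Pool.Agent.Helper24.R20

open Pool.Agent.Helper20.FA
open Pool.Agent.Helper20.FR

theorem hUL : StUL := by
  intro V _ _ F B hB
  have hlim : ∀ v : V, ∃ y : ℂ, Tendsto (fun n => F n v) ((hyperfilter ℕ : Ultrafilter ℕ) : Filter ℕ)
      (𝓝 y) := by
    intro v
    have hc : IsCompact (Metric.closedBall (0 : ℂ) (B v)) := isCompact_closedBall 0 (B v)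
    have hm : ((Ultrafilter.map (fun n => F n v) (hyperfilter ℕ) : Ultrafilter ℂ) : Filter ℂ)
        ≤ 𝓟 (Metric.closedBall (0 : ℂ) (B v)) := by
      rw [le_principal_iff, Ultrafilter.mem_coe, Ultrafilter.mem_map, ← Ultrafilter.mem_coe]
      refine Filter.univ_mem' fun n => ?_
      show F n v ∈ Metric.closedBall (0 : ℂ) (B v)
      rw [mem_closedBall_zero_iff]
      exact hB n v
    obtain ⟨y, -, hy⟩ := hc.ultrafilter_le_nhds _ hm
    exact ⟨y, hy⟩
  choose g hg using hlim
  refine ⟨{ toFun := g, map_add' := fun u v => ?_, map_smul' := fun c v => ?_ }, fun v S hS => ?_⟩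
  · have h1 := hg (u + v)
    have h2 := (hg u).add (hg v)
    refine tendsto_nhds_unique h1 ?_
    refine h2.congr fun n => ?_
    rw [map_add]
  · have h1 := hg (c • v)
    have h2 := (hg v).const_smul c
    refine tendsto_nhds_unique h1 ?_
    refine h2.congr fun n => ?_
    rw [map_smul]
  · have h1 : ∀ᶠ n in ((hyperfilter ℕ : Ultrafilter ℕ) : Filter ℕ), F n v ∈ S := hg v hS
    exact h1.frequently.filter_mono Nat.hyperfilter_le_atTop

end Pool.Agent.Helper24.R20
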